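import Pool.Agent.Q57.CX.Ring

/-!
Finitely many generating sections of a multigraded section ring which is finitely generated.
-/

set_option autoImplicit false
set_option linter.overlappingInstances false
set_option linter.unusedSectionVars false
set_option maxHeartbeats 1000000

open FF MvPolynomial Pool.Agent.W603.LV Pool.Agent.W602.GT Pool.Agent.W602.Cov
open Pool.Agent.TH756.PR Pool.Agent.TH122.AB Pool.Agent.TH756.PN
open Pool.Agent.Q57.FT Pool.Agent.Q57.CX

namespace Pool.Agent.Q57.HK

variable {p N : ℕ} {K : Type} [Field K] [Algebra ℂ K]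

/-- a term of small order -/
theorem exists_le_sum {ι : Type} (P : Place ℂ K) (s : Finset ι) (f : ι → K)
    (h : ∑ i ∈ s, f i ≠ 0) : ∃ i ∈ s, f i ≠ 0 ∧ P.ord (f i) ≤ P.ord (∑ i ∈ s, f i) := by
  by_contra hcon
  push Not at hcon
  have h1 : Ge P (P.ord (∑ i ∈ s, f i) + 1) (∑ i ∈ s, f i) := by
    refine Ge.sum _ _ fun i hi => ?_
    by_cases h0 : f i = 0
    · exact Or.inl h0
    · exact Or.inr (hcon i hi h0)
  have h2 := h1.resolve_left h
  linarith

/-- the exponents of a monomial in the generators -/
def Mnl {N0 : ℕ} (g : Fin N0 → Fin p → ℤ) (f : Fin N0 → K) (P : Place ℂ K) (μ : Fin p → ℤ)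
    (η : K) : Prop :=
  ∃ e : Fin N0 → ℕ, (∀ i, ∑ b, (e b : ℤ) * g b i = μ i) ∧ ∑ b, (e b : ℤ) * P.ord (f b) ≤ P.ord η

/-- **The generators.** -/
theorem gens_of_fg {δ : Fin p → Place ℂ K → ℚ} (h : (coxRing N δ).FG) :
    ∃ (N0 : ℕ) (g : Fin N0 → Fin p → ℤ) (f : Fin N0 → K),
      (∀ b, f b ≠ 0 ∧ ZSec N δ (g b) (f b)) ∧
      ∀ (μ : Fin p → ℤ) (η : K), η ≠ 0 → ZSec N δ μ η → ∀ P : Place ℂ K, Mnl g f P μ η := by
  classical
  obtain ⟨s, hs⟩ := h
  obtain ⟨G, hG⟩ : ∃ G : Finset ((Fin p → ℤ) × K),
    G = s.biUnion fun w => w.coeff.support.image fun μ => (μ, w.coeff μ) := ⟨_, rfl⟩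
  obtain ⟨g, hg⟩ : ∃ g : Fin G.card → Fin p → ℤ, g = fun b => (G.equivFin.symm b).1.1 := ⟨_, rfl⟩
  obtain ⟨f, hf⟩ : ∃ f : Fin G.card → K, f = fun b => (G.equivFin.symm b).1.2 := ⟨_, rfl⟩
  refine ⟨G.card, g, f, fun b => ?_, ?_⟩
  · have h1 := (G.equivFin.symm b).2
    have h2 : (G.equivFin.symm b).1 ∈ s.biUnion fun w => w.coeff.support.image
        fun μ => (μ, w.coeff μ) := by
      rw [← hG]
      exact h1
    obtain ⟨w, hw, h3⟩ := Finset.mem_biUnion.1 h2
    obtain ⟨μ, hμ, h4⟩ := Finset.mem_image.1 h3
    have hw' : w ∈ coxRing N δ := by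
      rw [← hs]
      exact Algebra.subset_adjoin hw
    rw [hf, hg]
    beta_reduce
    rw [← h4]
    exact ⟨Finsupp.mem_support_iff.1 hμ, hw' μ⟩
  · have key : ∀ w ∈ Algebra.adjoin ℂ (s : Set (AddMonoidAlgebra K (Fin p → ℤ))),
        ∀ μ, w.coeff μ ≠ 0 → ∀ P : Place ℂ K, Mnl g f P μ (w.coeff μ) := by
      intro w hw
      induction hw using Algebra.adjoin_induction with
      | mem w hw =>
        intro μ hμ P
        have hm : (μ, w.coeff μ) ∈ G := by
          rw [hG]
          exact Finset.mem_biUnion.2 ⟨w, hw, Finset.mem_image.2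
            ⟨μ, Finsupp.mem_support_iff.2 hμ, rfl⟩⟩
        obtain ⟨b, hb⟩ : ∃ b, b = G.equivFin ⟨(μ, w.coeff μ), hm⟩ := ⟨_, rfl⟩
        have hb1 : g b = μ := by
          rw [hg, hb]
          beta_reduce
          rw [Equiv.symm_apply_apply]
        have hb2 : f b = w.coeff μ := by
          rw [hf, hb]
          beta_reduce
          rw [Equiv.symm_apply_apply]
        refine ⟨fun b' => if b' = b then 1 else 0, fun i => ?_, ?_⟩
        · rw [Finset.sum_eq_single b]
          · beta_reduce
            rw [if_pos rfl, hb1]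
            simp
          · intro b' _ hb'
            beta_reduce
            rw [if_neg hb']
            simp
          · intro h
            exact absurd (Finset.mem_univ b) h
        · rw [Finset.sum_eq_single b]
          · beta_reduce
            rw [if_pos rfl, hb2]
            simp
          · intro b' _ hb'
            beta_reduce
            rw [if_neg hb']
            simp
          · intro h
            exact absurd (Finset.mem_univ b) h
      | algebraMap a =>
        intro μ hμ P
        rw [AddMonoidAlgebra.coe_algebraMap, Function.comp_apply, AddMonoidAlgebra.coeff_single,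
          Finsupp.single_apply] at hμ ⊢
        split_ifs at hμ ⊢ with h1
        · have ha : a ≠ 0 := by
            intro h0
            rw [h0, map_zero] at hμ
            exact hμ rfl
          refine ⟨fun _ => 0, fun i => ?_, ?_⟩
          · rw [← h1]
            simp
          · rw [P.ord_const ha]
            simp
        · exact absurd rfl hμ
      | add w w' _ _ ih ih' =>
        intro μ hμ P
        rw [AddMonoidAlgebra.coeff_add, Finsupp.add_apply] at hμ ⊢
        by_cases h1 : w.coeff μ = 0
        · rw [h1, zero_add] at hμ ⊢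
          exact ih' μ hμ P
        by_cases h2 : w'.coeff μ = 0
        · rw [h2, add_zero]
          exact ih μ h1 P
        by_cases h3 : P.ord (w.coeff μ) ≤ P.ord (w.coeff μ + w'.coeff μ)
        · obtain ⟨e, he1, he2⟩ := ih μ h1 P
          exact ⟨e, he1, he2.trans h3⟩
        by_cases h4 : P.ord (w'.coeff μ) ≤ P.ord (w.coeff μ + w'.coeff μ)
        · obtain ⟨e, he1, he2⟩ := ih' μ h2 P
          exact ⟨e, he1, he2.trans h4⟩
        · exfalso
          push Not at h3 h4
          have h5 : Ge P (P.ord (w.coeff μ + w'.coeff μ) + 1) (w.coeff μ + w'.coeff μ) :=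
            Ge.add (Or.inr h3) (Or.inr h4)
          have h6 := h5.resolve_left hμ
          linarith
      | mul w w' _ _ ih ih' =>
        intro μ hμ P
        rw [AddMonoidAlgebra.coeff_mul, Finsupp.sum] at hμ ⊢
        obtain ⟨μ1, -, h1, h1'⟩ := exists_le_sum P _ _ hμ
        rw [Finsupp.sum] at h1 h1'
        obtain ⟨μ2, -, h2, h2'⟩ := exists_le_sum P _ _ h1
        split_ifs at h2 h2' with h3
        · have h4 : w.coeff μ1 ≠ 0 := fun h0 => h2 (by rw [h0, zero_mul])
          have h5 : w'.coeff μ2 ≠ 0 := fun h0 => h2 (by rw [h0, mul_zero])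
          obtain ⟨e, he1, he2⟩ := ih μ1 h4 P
          obtain ⟨e', he1', he2'⟩ := ih' μ2 h5 P
          rw [P.ord_mul h4 h5] at h2'
          refine ⟨fun b => e b + e' b, fun i => ?_, ?_⟩
          · rw [← h3, Pi.add_apply, ← he1, ← he1', ← Finset.sum_add_distrib]
            refine Finset.sum_congr rfl fun b _ => ?_
            push_cast
            ring
          · have h6 : ∑ b, ((e b + e' b : ℕ) : ℤ) * P.ord (f b) =
                ∑ b, (e b : ℤ) * P.ord (f b) + ∑ b, (e' b : ℤ) * P.ord (f b) := by
              rw [← Finset.sum_add_distrib]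
              refine Finset.sum_congr rfl fun b _ => ?_
              push_cast
              ring
            rw [h6]
            linarith
        · exact absurd rfl h2
    intro μ η hη hsec P
    have h1 : AddMonoidAlgebra.single μ η ∈ coxRing N δ := single_mem hsec
    rw [← hs] at h1
    have h2 := key _ h1 μ
    rw [AddMonoidAlgebra.coeff_single, Finsupp.single_eq_same] at h2
    exact h2 hη P

end Pool.Agent.Q57.HK
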