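import Pool.Agent.Q57.HK.Gen

/-!
The small modifications on which the divisors are `ℚ`-Cartier and some combination of them is ample:
there are finitely many of them if the multigraded section ring is finitely generated.
-/

set_option autoImplicit false
set_option linter.overlappingInstances false
set_option linter.unusedSectionVars false
set_option maxHeartbeats 1000000

open FF MvPolynomial Pool.Agent.W603.LV Pool.Agent.W602.GT Pool.Agent.W602.Cov
open Pool.Agent.TH756.PR Pool.Agent.TH122.AB Pool.Agent.TH756.PN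
open Pool.Agent.Q57.FT Pool.Agent.Q57.CX

namespace Pool.Agent.Q57.HK

variable {p N : ℕ} {K : Type} [Field K] [Algebra ℂ K]

/-- the rational combination is semiample -/
def SemiA (N : ℕ) (δ : Fin p → Place ℂ K → ℚ) (μ : Fin p → ℚ) : Prop :=
  ∃ k : ℕ, 1 ≤ k ∧ ∃ ν : Fin p → ℤ, (∀ i, (k : ℚ) * μ i = ν i) ∧ Bpf N δ ν

/-- a small modification with the coefficients `δ'` of the divisors -/
def Small (N : ℕ) (δ δ' : Fin p → Place ℂ K → ℚ) (lam : Fin p → ℚ) : Prop :=
  (∀ μ f, ZSec N δ μ f ↔ ZSec N δ' μ f) ∧ ∃ ε : ℚ, 0 < ε ∧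
    ∀ μ : Fin p → ℚ, (∀ i, |μ i - lam i| ≤ ε) → SemiA N δ' μ

section

variable {N0 : ℕ} {g : Fin N0 → Fin p → ℤ} {f : Fin N0 → K} {δ : Fin p → Place ℂ K → ℚ}

/-- `μ` is in the cone of the generators in `B` -/
def CoG (g : Fin N0 → Fin p → ℤ) (B : Finset (Fin N0)) (μ : Fin p → ℚ) : Prop :=
  ∃ e : Fin N0 → ℚ, (∀ b, 0 ≤ e b) ∧ (∀ b, b ∉ B → e b = 0) ∧ ∀ i, ∑ b, e b * g b i = μ i

open Classical in
/-- the cones which contain `μ` -/
noncomputable def sig (g : Fin N0 → Fin p → ℤ) (μ : Fin p → ℚ) : Finset (Finset (Fin N0)) :=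
  Finset.univ.filter fun B => CoG g B μ

open Classical in
/-- the generators whose order at `P` is minimal -/
noncomputable def tig (g : Fin N0 → Fin p → ℤ) (f : Fin N0 → K) (δ' : Fin p → Place ℂ K → ℚ)
    (P : Place ℂ K) : Finset (Fin N0) :=
  Finset.univ.filter fun b => (P.ord (f b) : ℚ) = - ∑ i, (g b i : ℚ) * δ' i P

variable (hgen : (∀ b, f b ≠ 0 ∧ ZSec N δ (g b) (f b)) ∧
      ∀ (μ : Fin p → ℤ) (η : K), η ≠ 0 → ZSec N δ μ η → ∀ P : Place ℂ K, Mnl g f P μ η)

include hgen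

theorem ge_coef {δ' : Fin p → Place ℂ K → ℚ} {lam : Fin p → ℚ} (h : Small N δ δ' lam)
    {P : Place ℂ K} (hP : Divisorial N P) (b : Fin N0) :
    - ∑ i, (g b i : ℚ) * δ' i P ≤ P.ord (f b) :=
  ((h.1 _ _).1 (hgen.1 b).2 P hP).resolve_left (hgen.1 b).1

/-- **Semiample combinations are in the cone of the generators of minimal order.** -/
theorem mem_tig {δ' : Fin p → Place ℂ K → ℚ} {lam : Fin p → ℚ} (h : Small N δ δ' lam)
    {P : Place ℂ K} (hP : Divisorial N P) {μ : Fin p → ℚ} (hμ : SemiA N δ' μ) :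
    CoG g (tig g f δ' P) μ := by
  classical
  obtain ⟨k, hk, ν, hν, hb⟩ := hμ
  obtain ⟨η, hη0, hη, hle⟩ := hb P hP
  obtain ⟨e, he1, he2⟩ := hgen.2 ν η hη0 ((h.1 _ _).2 hη) P
  have hk0 : (0 : ℚ) < k := by exact_mod_cast hk
  have hge := ge_coef hgen h hP
  have h1 : ∑ b, (e b : ℚ) * ∑ i, (g b i : ℚ) * δ' i P = ∑ i, (ν i : ℚ) * δ' i P := by
    simp only [Finset.mul_sum]
    rw [Finset.sum_comm]
    refine Finset.sum_congr rfl fun i _ => ?_
    rw [← he1 i]
    push_cast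
    rw [Finset.sum_mul]
    exact Finset.sum_congr rfl fun b _ => by ring
  have h2 : ∑ b, (e b : ℚ) * (P.ord (f b) + ∑ i, (g b i : ℚ) * δ' i P) ≤ 0 := by
    have h3 : ((∑ b, (e b : ℤ) * P.ord (f b) : ℤ) : ℚ) ≤ (P.ord η : ℚ) := by exact_mod_cast he2
    have h4 : ∑ b, (e b : ℚ) * (P.ord (f b) + ∑ i, (g b i : ℚ) * δ' i P) =
        ((∑ b, (e b : ℤ) * P.ord (f b) : ℤ) : ℚ) + ∑ i, (ν i : ℚ) * δ' i P := by
      rw [← h1]
      push_cast
      rw [← Finset.sum_add_distrib]
      exact Finset.sum_congr rfl fun b _ => by ring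
    rw [h4]
    linarith
  have h3 : ∀ b ∈ Finset.univ, 0 ≤ (e b : ℚ) * (P.ord (f b) + ∑ i, (g b i : ℚ) * δ' i P) := by
    intro b _
    refine mul_nonneg (by positivity) ?_
    have := hge b
    linarith
  have h4 : ∀ b ∈ Finset.univ, (e b : ℚ) * (P.ord (f b) + ∑ i, (g b i : ℚ) * δ' i P) = 0 :=
    (Finset.sum_eq_zero_iff_of_nonneg h3).1 (le_antisymm h2 (Finset.sum_nonneg h3))
  refine ⟨fun b => e b / k, fun b => by positivity, fun b hb => ?_, fun i => ?_⟩
  · have h5 := h4 b (Finset.mem_univ b)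
    rcases mul_eq_zero.1 h5 with h6 | h6
    · beta_reduce
      rw [h6, zero_div]
    · exfalso
      apply hb
      unfold tig
      rw [Finset.mem_filter]
      exact ⟨Finset.mem_univ b, by linarith⟩
  · have h5 : ∑ b, (e b : ℚ) / k * g b i = (∑ b, (e b : ℚ) * g b i) / k := by
      rw [Finset.sum_div]
      exact Finset.sum_congr rfl fun b _ => by ring
    have h6 : ∑ b, (e b : ℚ) * g b i = ν i := by
      rw [← he1 i]
      push_cast
      rfl
    rw [h5, h6, ← hν i]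
    field_simp

/-- the values on the cone of the generators of minimal order -/
theorem val_tig {δ' δ'' : Fin p → Place ℂ K → ℚ} {lam'' : Fin p → ℚ} (h'' : Small N δ δ'' lam'')
    {P : Place ℂ K} (hP : Divisorial N P) {μ : Fin p → ℚ} (hμ : CoG g (tig g f δ' P) μ) :
    ∑ i, μ i * δ' i P ≤ ∑ i, μ i * δ'' i P := by
  classical
  obtain ⟨e, he0, he1, he2⟩ := hμ
  have h1 : ∀ δ1 : Fin p → Place ℂ K → ℚ, ∑ i, μ i * δ1 i P =
      ∑ b, e b * ∑ i, (g b i : ℚ) * δ1 i P := by
    intro δ1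
    simp only [Finset.mul_sum]
    rw [Finset.sum_comm]
    refine Finset.sum_congr rfl fun i _ => ?_
    rw [← he2 i, Finset.sum_mul]
    exact Finset.sum_congr rfl fun b _ => by ring
  rw [h1, h1]
  refine Finset.sum_le_sum fun b _ => ?_
  by_cases hb : b ∈ tig g f δ' P
  · refine mul_le_mul_of_nonneg_left ?_ (he0 b)
    unfold tig at hb
    have h2 := (Finset.mem_filter.1 hb).2
    have h3 := ge_coef hgen h'' hP b
    linarith
  · rw [he1 b hb, zero_mul, zero_mul]

/-- **The coefficients are determined by the cones which contain the ample combination.** -/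
theorem eq_of_sig {δ' δ'' : Fin p → Place ℂ K → ℚ} {lam' lam'' : Fin p → ℚ}
    (h' : Small N δ δ' lam') (h'' : Small N δ δ'' lam'') (hs : sig g lam' = sig g lam'')
    {P : Place ℂ K} (hP : Divisorial N P) (i : Fin p) : δ' i P = δ'' i P := by
  classical
  -- at the combination `lam''`
  obtain ⟨-, ε', hε', hamp'⟩ := h'.2 |> fun h => (⟨trivial, h⟩ : True ∧ _)
  obtain ⟨ε, hε, hamp⟩ := h''.2
  have h1 : CoG g (tig g f δ' P) lam'' := by
    have h2 : tig g f δ' P ∈ sig g lam' := by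
      unfold sig
      rw [Finset.mem_filter]
      exact ⟨Finset.mem_univ _, mem_tig hgen h' hP (hamp' _ fun i => by simp [hε'.le])⟩
    rw [hs] at h2
    unfold sig at h2
    exact (Finset.mem_filter.1 h2).2
  have h2 := val_tig hgen h'' hP h1
  have h3 : ∀ μ : Fin p → ℚ, (∀ i, |μ i - lam'' i| ≤ ε) →
      ∑ i, μ i * δ'' i P ≤ ∑ i, μ i * δ' i P := fun μ hμ =>
    val_tig hgen h' hP (mem_tig hgen h'' hP (hamp μ hμ))
  have h4 : ∀ t : ℚ, |t| ≤ ε → t * δ'' i P ≤ t * δ' i P := by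
    intro t ht
    have h5 := h3 (fun j => lam'' j + if j = i then t else 0) fun j => by
      split_ifs
      · simpa using ht
      · simpa using hε.le
    have h6 : ∀ δ1 : Fin p → Place ℂ K → ℚ, ∑ j, (lam'' j + if j = i then t else 0) * δ1 j P =
        ∑ j, lam'' j * δ1 j P + t * δ1 i P := by
      intro δ1
      simp only [add_mul, Finset.sum_add_distrib, ite_mul, zero_mul]
      congr 1
      rw [Finset.sum_ite_eq' Finset.univ i]
      simp
    rw [h6, h6] at h5
    linarith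
  have h5 := h4 ε (by rw [abs_of_pos hε])
  have h6 := h4 (-ε) (by rw [abs_neg, abs_of_pos hε])
  nlinarith

end

/-- **There are finitely many small modifications.** -/
theorem fin_small {δ : Fin p → Place ℂ K → ℚ} (h : (coxRing N δ).FG) :
    ∃ B : ℕ, ∀ (δs : Fin (B + 1) → Fin p → Place ℂ K → ℚ),
      (∀ j, ∃ lam : Fin p → ℚ, Small N δ (δs j) lam) →
      ∃ j j' : Fin (B + 1), j < j' ∧ ∀ P : Place ℂ K, Divisorial N P →
        ∀ i, δs j i P = δs j' i P := by
  classical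
  obtain ⟨N0, g, f, hgen⟩ := gens_of_fg h
  refine ⟨Fintype.card (Finset (Finset (Fin N0))), fun δs hδs => ?_⟩
  choose lam hlam using hδs
  obtain ⟨j, j', hne, heq⟩ := Fintype.exists_ne_map_eq_of_card_lt (fun j => sig g (lam j)) (by
    rw [Fintype.card_fin]
    exact Nat.lt_succ_self _)
  rcases lt_or_gt_of_ne hne with hlt | hlt
  · exact ⟨j, j', hlt, fun P hP i => eq_of_sig hgen (hlam j) (hlam j') heq hP i⟩
  · exact ⟨j', j, hlt, fun P hP i => eq_of_sig hgen (hlam j') (hlam j) heq.symm hP i⟩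

/-- **Termination of flips**, with a uniform bound. -/
theorem term_small {δ : Fin p → Place ℂ K → ℚ} (h : (coxRing N δ).FG) :
    ∃ B : ℕ, (∀ (δs : Fin (B + 1) → Fin p → Place ℂ K → ℚ),
      (∀ j, ∃ lam : Fin p → ℚ, Small N δ (δs j) lam) →
      ∃ j j' : Fin (B + 1), j < j' ∧ ∀ P : Place ℂ K, Divisorial N P →
        ∀ i, δs j i P = δs j' i P) ∧
      ∀ (w : Fin p → ℝ) (L : ℕ) (δs : ℕ → Fin p → Place ℂ K → ℚ),
        (∀ j ≤ L, ∃ lam : Fin p → ℚ, Small N δ (δs j) lam) →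
        (∀ j < L, (∀ P : Place ℂ K, Divisorial N P →
            ∑ i, w i * (δs (j + 1) i P : ℝ) ≤ ∑ i, w i * (δs j i P : ℝ)) ∧
          ∃ P : Place ℂ K, Divisorial N P ∧
            ∑ i, w i * (δs (j + 1) i P : ℝ) < ∑ i, w i * (δs j i P : ℝ)) → L < B := by
  classical
  obtain ⟨B, hB⟩ := fin_small h
  refine ⟨B, hB, fun w L δs hsm hst => ?_⟩
  by_contra hcon
  push Not at hcon
  obtain ⟨j, j', hlt, heq⟩ := hB (fun j => δs j) fun j => hsm j (by
    have := j.2
    omega)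
  have hlt' : (j : ℕ) < j' := hlt
  have hj' : (j' : ℕ) ≤ L := by
    have := j'.2
    omega
  have hmono : ∀ a b : ℕ, a ≤ b → b ≤ L → ∀ P : Place ℂ K, Divisorial N P →
      ∑ i, w i * (δs b i P : ℝ) ≤ ∑ i, w i * (δs a i P : ℝ) := by
    intro a b hab
    induction b, hab using Nat.le_induction with
    | base => intro _ P _; exact le_rfl
    | succ b hab ih =>
      intro hb P hP
      exact ((hst b (by omega)).1 P hP).trans (ih (by omega) P hP)
  obtain ⟨P, hP, hs⟩ := (hst j (by omega)).2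
  have h1 := hmono (j + 1) j' (by omega) hj' P hP
  have h2 : ∑ i, w i * (δs j i P : ℝ) = ∑ i, w i * (δs j' i P : ℝ) :=
    Finset.sum_congr rfl fun i _ => by rw [heq P hP i]
  linarith

end Pool.Agent.Q57.HK
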