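import Pool.Agent.Q57.HK.Small
import Pool.Agent.Q57.CX.Top

/-!
Finiteness of small modifications and termination of flips for the toroidal modifications of covers
of products of projective spaces.
-/

set_option autoImplicit false
set_option linter.overlappingInstances false
set_option linter.unusedSectionVars false
set_option maxHeartbeats 1000000

open FF MvPolynomial Pool.Agent.W603.LV Pool.Agent.W602.GT Pool.Agent.W602.Cov
open Pool.Agent.TH756.PR Pool.Agent.TH122.AB Pool.Agent.TH756.PN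
open Pool.Agent.Y169.CH Pool.Agent.Q57.TP Pool.Agent.Q57.TQ Pool.Agent.Q57.GM
open Pool.Agent.Q57.GH Pool.Agent.Q57.FG Pool.Agent.Q57.FH Pool.Agent.Q57.GE Pool.Agent.Q57.FT
open Pool.Agent.Q57.CX

namespace Pool.Agent.Q57.HK

variable {r N R p : ℕ} {n : Fin r → ℕ} {K : Type} [Field K] [Algebra ℂ K]

/-- **Finiteness of small modifications and termination of flips.** -/
theorem main_term (hr : 1 ≤ r) (hn : ∀ i, 1 ≤ n i) (hN : N = ∑ i, n i)
    {F : ∀ i, MvPolynomial (Fin (n i + 1)) ℂ} {d : Fin r → ℕ} (hd : ∀ i, 1 ≤ d i)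
    (hh : ∀ i, (F i).IsHomogeneous (d i)) (hs : ∀ i, SmF (F i))
    {x : ∀ i, Fin (n i + 1) → K} (hx0 : ∀ i, x i 0 ≠ 0)
    (hbas : IsTranscendenceBasis ℂ (aff x)) {m : Fin R → ℕ} (hm : ∀ j, 0 < m j)
    {a : Fin R → Fin r → ℕ} (hdiv : ∀ j i, m j ∣ a j i * d i) {z : Fin R → K}
    (hz : ∀ j, z j ^ m j = ∏ i, (aeval (x i) (F i) / x i 0 ^ d i) ^ a j i)
    (hgen : IntermediateField.adjoin ℂ (Set.range (aff x) ∪ Set.range z) = ⊤)
    {S : Finset (Finset (Fin r → ℕ))} (hS : Fan m a S) {c : Fin p → (Fin r → ℕ) → ℚ}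
    (hc0 : ∀ i, c i 0 = 0) {u : Finset (Fin r → ℕ) → Fin p → Fin r → ℚ} (hu : LinC m a S c u)
    {β : Fin p → Fin r → ℤ} {δ : Fin p → Place ℂ K → ℚ}
    (hδ : ∀ i P, δ i P = c i (mulQ F d x P) - ∑ t, (β i t : ℚ) * minO (x t) P) :
    ∃ B : ℕ, (∀ (δs : Fin (B + 1) → Fin p → Place ℂ K → ℚ),
      (∀ j, ∃ lam : Fin p → ℚ, Small N δ (δs j) lam) →
      ∃ j j' : Fin (B + 1), j < j' ∧ ∀ P : Place ℂ K, Divisorial N P →
        ∀ i, δs j i P = δs j' i P) ∧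
      ∀ (w : Fin p → ℝ) (L : ℕ) (δs : ℕ → Fin p → Place ℂ K → ℚ),
        (∀ j ≤ L, ∃ lam : Fin p → ℚ, Small N δ (δs j) lam) →
        (∀ j < L, (∀ P : Place ℂ K, Divisorial N P →
            ∑ i, w i * (δs (j + 1) i P : ℝ) ≤ ∑ i, w i * (δs j i P : ℝ)) ∧
          ∃ P : Place ℂ K, Divisorial N P ∧
            ∑ i, w i * (δs (j + 1) i P : ℝ) < ∑ i, w i * (δs j i P : ℝ)) → L < B :=
  term_small (main_cox hr hn hN hd hh hs hx0 hbas hm hdiv hz hgen hS hc0 hu hδ)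

end Pool.Agent.Q57.HK
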